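import Mathlib
import Pool.Agent.Y142.ZI.Stm

/-!
# Tasks INT and RES of the project Y142-ZI
-/

set_option autoImplicit false

open Matrix Polynomial Filter Topology NumberField IsDedekindDomain
open Pool.Agent.Y142.ZO

namespace Pool.Agent.Y484.ZI

open Pool.Agent.Y142.ZI

/-- clearing denominators in a Bezout relation -/
theorem bezout_int (f : ℤ[X]) (hf : (f.map (Int.castRingHom ℚ)).Separable) :
    ∃ (D : ℤ) (a b : ℤ[X]), D ≠ 0 ∧ a * f + b * derivative f = C D := by
  obtain ⟨a, b, hab⟩ := hf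
  obtain ⟨m, hm1, hm⟩ := IsLocalization.integerNormalization_spec (nonZeroDivisors ℤ) a
  obtain ⟨n, hn1, hn⟩ := IsLocalization.integerNormalization_spec (nonZeroDivisors ℤ) b
  have hm0 : m ≠ 0 := nonZeroDivisors.ne_zero hm1
  have hn0 : n ≠ 0 := nonZeroDivisors.ne_zero hn1
  refine ⟨m * n, C n * IsLocalization.integerNormalization (nonZeroDivisors ℤ) a,
    C m * IsLocalization.integerNormalization (nonZeroDivisors ℤ) b, mul_ne_zero hm0 hn0, ?_⟩
  apply Polynomial.map_injective (Int.castRingHom ℚ) Int.cast_injective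
  have e : Int.castRingHom ℚ = algebraMap ℤ ℚ := rfl
  have hsm : ∀ (k : ℤ) (p : ℚ[X]), k • p = C (k : ℚ) * p := fun k p => by
    rw [zsmul_eq_mul]
    congr 1
  rw [Polynomial.map_add, Polynomial.map_mul, Polynomial.map_mul, Polynomial.map_mul,
    Polynomial.map_mul, map_C, map_C, map_C, e, hm, hn, hsm, hsm, ← Polynomial.derivative_map, ← e]
  have h1 : C ((Int.castRingHom ℚ) (m * n)) = C (m : ℚ) * C (n : ℚ) := by
    rw [← C_mul, map_mul]
    rfl
  rw [h1]
  have h2 : (C ((Int.castRingHom ℚ) n) : ℚ[X]) = C (n : ℚ) := rfl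
  have h3 : (C ((Int.castRingHom ℚ) m) : ℚ[X]) = C (m : ℚ) := rfl
  rw [h2, h3]
  linear_combination (C (m : ℚ) * C (n : ℚ)) * hab

/-- separability modulo almost all primes -/
theorem sep_mod (f : ℤ[X]) (hf : (f.map (Int.castRingHom ℚ)).Separable) :
    ∃ b : ℕ, ∀ ℓ : ℕ, b < ℓ → ℓ.Prime → (f.map (Int.castRingHom (ZMod ℓ))).Separable := by
  obtain ⟨D, a, b, hD, hab⟩ := bezout_int f hf
  refine ⟨D.natAbs, fun ℓ hℓ hp => ?_⟩
  have : Fact ℓ.Prime := ⟨hp⟩
  have hD1 : (D : ZMod ℓ) ≠ 0 := by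
    intro h
    rw [ZMod.intCast_zmod_eq_zero_iff_dvd] at h
    have h1 := Int.natAbs_dvd_natAbs.2 h
    rw [Int.natAbs_natCast] at h1
    have h2 := Nat.le_of_dvd (Int.natAbs_pos.2 hD) h1
    omega
  have h1 := congrArg (Polynomial.map (Int.castRingHom (ZMod ℓ))) hab
  rw [Polynomial.map_add, Polynomial.map_mul, Polynomial.map_mul, map_C,
    ← Polynomial.derivative_map] at h1
  refine ⟨C (D : ZMod ℓ)⁻¹ * a.map (Int.castRingHom (ZMod ℓ)),
    C (D : ZMod ℓ)⁻¹ * b.map (Int.castRingHom (ZMod ℓ)), ?_⟩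
  have h2 : (C (D : ZMod ℓ)⁻¹ : (ZMod ℓ)[X]) * C (D : ZMod ℓ) = 1 := by
    rw [← C_mul, inv_mul_cancel₀ hD1, C_1]
  have h3 : (C ((Int.castRingHom (ZMod ℓ)) D) : (ZMod ℓ)[X]) = C (D : ZMod ℓ) := rfl
  rw [h3] at h1
  linear_combination (C (D : ZMod ℓ)⁻¹) * h1 + h2

/-- a primitive element -/
theorem prim {K E : Type} [Field K] [CharZero K] [Field E] [Algebra K E]
    (M : IntermediateField K E) [FiniteDimensional K M] :
    ∃ α : E, M = IntermediateField.adjoin K {α} ∧ IsIntegral K α := by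
  obtain ⟨α, hα⟩ := Field.exists_primitive_element K M
  refine ⟨α, ?_, ?_⟩
  · rw [← IntermediateField.lift_adjoin_simple, hα, IntermediateField.lift_top]
  · have h1 : IsIntegral K α := Algebra.IsIntegral.isIntegral α
    exact h1.map M.val

/-- **INT** -/
theorem t1 : S_INT := by
  intro M hM
  obtain ⟨α, hM1, hint0⟩ := prim M
  have halg : IsAlgebraic ℤ α :=
    (IsFractionRing.isAlgebraic_iff ℤ ℚ QQ).2 hint0.isAlgebraic
  obtain ⟨n, hn, hint⟩ := halg.exists_integral_multiple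
  set β : QQ := n • α with hβ
  refine ⟨minpoly ℤ β, minpoly.monic hint, ?_, ?_⟩
  · rw [hM1, IntermediateField.adjoin_le_iff, Set.singleton_subset_iff]
    have h1 : β ∈ IntermediateField.adjoin ℚ {x : QQ | aeval x (minpoly ℤ β) = 0} :=
      IntermediateField.subset_adjoin _ _ (minpoly.aeval ℤ β)
    have hn0 : (n : QQ) ≠ 0 := Int.cast_ne_zero.2 hn
    have h2 : α = (n : QQ)⁻¹ * β := by
      rw [hβ, zsmul_eq_mul, inv_mul_cancel_left₀ hn0]
    have h3 : α ∈ IntermediateField.adjoin ℚ {x : QQ | aeval x (minpoly ℤ β) = 0} := by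
      rw [h2]
      exact mul_mem (inv_mem (intCast_mem _ n)) h1
    exact h3
  · apply sep_mod
    have h1 := minpoly.isIntegrallyClosed_eq_field_fractions' ℚ hint
    have e : Int.castRingHom ℚ = algebraMap ℤ ℚ := rfl
    rw [e, ← h1]
    exact (minpoly.irreducible (hint.tower_top)).separable

/-- **RES** -/
theorem t2 : S_RES := by
  intro ℓ _ ι f M hM τ
  let _ : Algebra QQ (AlgebraicClosure ℚ_[ℓ]) := ι.toAlgebra
  have htow : IsScalarTower ℚ QQ (AlgebraicClosure ℚ_[ℓ]) :=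
    IsScalarTower.of_algebraMap_eq fun q => by
      rw [eq_ratCast, eq_ratCast, map_ratCast]
  let χ : AlgebraicClosure ℚ_[ℓ] ≃ₐ[ℚ] AlgebraicClosure ℚ_[ℓ] :=
    AlgEquiv.ofRingEquiv (f := τ.toRingEquiv) fun q => by
      rw [eq_ratCast, map_ratCast]
  have hnorm : Normal ℚ QQ := by
    have h1 : (DivisionRing.toRatAlgebra : Algebra ℚ QQ) = AlgebraicClosure.instAlgebra ℚ :=
      Subsingleton.elim _ _
    rw [h1]
    exact @IsAlgClosure.normal ℚ QQ _ _ (AlgebraicClosure.instAlgebra ℚ) _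
  let σ : GK ℚ := χ.restrictNormal QQ
  have hσ : ∀ x : QQ, ι (σ x) = τ (ι x) := fun x => χ.restrictNormal_commutes QQ x
  refine ⟨σ, ?_, fun x => (hσ x).symm⟩
  have key : ∀ x ∈ IntermediateField.adjoin ℚ {x : QQ | aeval x f = 0},
      ι x ∈ IntermediateField.adjoin ℚ_[ℓ] {x : AlgebraicClosure ℚ_[ℓ] | aeval x f = 0} := by
    intro x hx
    induction hx using IntermediateField.adjoin_induction with
    | mem x hx =>
      apply IntermediateField.subset_adjoin
      show aeval (ι x) f = 0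
      have h1 : aeval x f = 0 := hx
      have h2 : aeval (algebraMap QQ (AlgebraicClosure ℚ_[ℓ]) x) f =
          algebraMap QQ (AlgebraicClosure ℚ_[ℓ]) (aeval x f) :=
        Polynomial.aeval_algebraMap_apply _ _ _
      rw [h1, map_zero] at h2
      exact h2
    | algebraMap q =>
      rw [eq_ratCast, map_ratCast]
      exact SubfieldClass.ratCast_mem _ q
    | add x y _ _ h1 h2 => rw [map_add]; exact add_mem h1 h2
    | inv x _ h1 => rw [map_inv₀]; exact inv_mem h1
    | mul x y _ _ h1 h2 => rw [map_mul]; exact mul_mem h1 h2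
  intro x hx
  apply ι.injective
  rw [hσ]
  exact τ.commutes ⟨ι x, key x (hM hx)⟩

end Pool.Agent.Y484.ZI
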